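import Pool.Agent.Q80.KT.Stm

/-! Functions of the ball (`S_BM`). -/

open Finset

namespace Pool.Agent.Q149.KT.BM

open Pool.Agent.Q80.KT

lemma mem_ball {n : ℕ} (G : SimpleGraph (Fin n)) (v w : Fin n) (r : ℕ) :
    w ∈ ball G v r ↔ G.Reachable v w ∧ G.dist v w ≤ r := by
  unfold ball; simp

lemma mem_sph {n : ℕ} (G : SimpleGraph (Fin n)) (v w : Fin n) (r : ℕ) :
    w ∈ sph G v r ↔ G.Reachable v w ∧ G.dist v w = r := by
  unfold sph; simp

lemma iso_dir {n k : ℕ} (F : SimpleGraph (Fin k)) (u : Fin k) (v : Fin n) (r : ℕ)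
    (G G' : SimpleGraph (Fin n)) (hb : ball G v r = ball G' v r)
    (ha : ∀ a ∈ ball G v r, ∀ b ∈ ball G v r, (G.Adj a b ↔ G'.Adj a b))
    (h : BallIso F u G v r) : BallIso F u G' v r := by
  obtain ⟨φ, hi, hu, hr, hadj⟩ := h
  have hmem : ∀ a, φ a ∈ ball G v r := fun a => by
    rw [mem_ball]; exact (hr (φ a)).1 ⟨a, rfl⟩
  refine ⟨φ, hi, hu, fun w => ?_, fun a b => ?_⟩
  · rw [hr w, ← mem_ball, ← mem_ball, hb]
  · rw [hadj a b]
    exact ha _ (hmem a) _ (hmem b)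

theorem t_BM : S_BM := by
  intro n v r hr
  refine ⟨fun G => ?_, fun k F u => ?_, ?_⟩
  · ext w
    rw [mem_sph, mem_sdiff, mem_ball, mem_ball]
    constructor
    · rintro ⟨h1, h2⟩
      exact ⟨⟨h1, h2.le⟩, fun h3 => by omega⟩
    · rintro ⟨⟨h1, h2⟩, h3⟩
      refine ⟨h1, ?_⟩
      by_contra hne
      exact h3 ⟨h1, by omega⟩
  · intro G G' h1 _ h3
    have h4 : ∀ a ∈ ball G' v r, ∀ b ∈ ball G' v r, (G'.Adj a b ↔ G.Adj a b) := by
      intro a ha b hb
      rw [← h1] at ha hb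
      exact (h3 a ha b hb).symm
    have : BallIso F u G v r ↔ BallIso F u G' v r :=
      ⟨iso_dir F u v r G G' h1 h3, iso_dir F u v r G' G h1.symm h4⟩
    show ind (BallIso F u G v r) = ind (BallIso F u G' v r)
    unfold ind
    by_cases hc : BallIso F u G v r
    · rw [if_pos hc, if_pos (this.1 hc)]
    · rw [if_neg hc, if_neg (fun hh => hc (this.2 hh))]
  · intro G G' h1 _ _
    show ((ball G v r).card : ℝ) = ((ball G' v r).card : ℝ)
    rw [h1]

end Pool.Agent.Q149.KT.BM
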